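import Pool.Agent.H28.Haar

set_option autoImplicit false

open Polynomial Pool.Agent.H28

namespace Pool.Agent.Results.MP_5c86b6_an.Small

theorem result : ∃ (a b c : ℕ → ℝ) (P : ℕ → ℝ[X]), (∀ n, 0 < a n ∧ b n = 0) ∧ a 0 + b 0 = 1 ∧
    (∀ n, 1 ≤ n → 0 < c n ∧ a n + b n + c n = 1) ∧ P 0 = 1 ∧ P 1 = (a 0)⁻¹ • (X - C (b 0)) ∧
    (∀ n, 1 ≤ n → X * P n = a n • P (n + 1) + b n • P n + c n • P (n - 1)) ∧
    (∀ m n, ∃ g : ℕ →₀ ℝ, (∀ k, 0 ≤ g k) ∧ P m * P n = g.sum fun k r => r • P k) ∧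
    a 0 * a 1 / (c 1 * c 2) < 2 := by
  refine ⟨fun n => 1 - Haar.c n, 0, Haar.c, Haar.P, fun n => ⟨(Haar.cb n).2.2, rfl⟩,
    by simp [Haar.c0], fun n h => ⟨(Haar.cb n).2.1 (by omega), by simp⟩, rfl,
    by simp [Haar.P, Haar.c0], fun n _ => by simpa using Haar.rc n, Haar.lin, ?_⟩
  norm_num [Haar.c0, Haar.c1, Haar.c2]

end Pool.Agent.Results.MP_5c86b6_an.Small
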